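import Mathlib
import Pool.Agent.H633R3.Corr5

/-!
Discrepancy of multiple correlations along homogeneous progressions: the answer for both weights.

* Weight `w = 1`: the assertion is false. If `f` is the completely multiplicative function with
  `f 2 = 1` and `f p = χ₋₄(p)` for odd primes `p`, then
  `f (2j) (f (2j - 1) + f (2j + 1)) = 0`, so the sums of `f (k + 1) f (k + 2)` stay bounded.
* Weight `w k = e (k ^ 2 α)`, `α` irrational: the assertion is true, for arbitrary unimodular
  sequences. One finds finitely many pairwise coprime dilations `d_c` and windows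
  `{d_c (N_c + s)}` covering very few positions in total (an arithmetic Kakeya configuration),
  such that the phases `N_c α` are independent; then a counting argument shows that no assignment
  of unimodular numbers to the positions keeps all the window sums small.
-/

set_option autoImplicit false

namespace Pool.Agent.Results.MP_10145b_nt.BothWeights

open Finset Pool.Agent.H633R3.Corr

open scoped ENNReal

/-- `D(a, h, w)`: the supremum over `d, n ≥ 1` of
`|∑_{k=1}^n w(k) a_1(d(k+h_1)) ⋯ a_l(d(k+h_l))|`, an element of `[0, ∞]`. (The values of the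
sequences at `0` play no role.) -/
noncomputable def D {l : ℕ} (a : Fin l → ℕ → Circle) (h : Fin l → ℕ) (w : ℕ → ℂ) : ℝ≥0∞ :=
  ⨆ (d : ℕ) (_ : 1 ≤ d) (n : ℕ) (_ : 1 ≤ n),
    ENNReal.ofReal ‖∑ k ∈ Icc 1 n, w k * ∏ j, (a j (d * (k + h j)) : ℂ)‖

/-- `-1` on the circle -/
noncomputable def m1 : Circle := Circle.exp Real.pi

theorem coe_m1 : (m1 : ℂ) = -1 := by
  unfold m1
  rw [Circle.coe_exp, Complex.exp_pi_mul_I]

theorem m1_sq : m1 * m1 = 1 := by
  apply Circle.ext
  rw [Circle.coe_mul, coe_m1, Circle.coe_one]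
  norm_num

/-- the completely multiplicative function `m ↦ χ₋₄(odd part of m)` -/
noncomputable def f (m : ℕ) : Circle := if ordCompl[2] m % 4 = 3 then m1 else 1

theorem odd_part {m : ℕ} (hm : 1 ≤ m) : ordCompl[2] m % 2 = 1 := by
  have h := Nat.not_dvd_ordCompl Nat.prime_two (n := m) (by omega)
  omega

theorem f_mul (m n : ℕ) (hm : 1 ≤ m) (hn : 1 ≤ n) : f (m * n) = f m * f n := by
  unfold f
  rw [Nat.ordCompl_mul]
  have h1 := odd_part hm
  have h2 := odd_part hn
  set x := ordCompl[2] m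
  set y := ordCompl[2] n
  have h3 : x % 4 = 1 ∨ x % 4 = 3 := by omega
  have h4 : y % 4 = 1 ∨ y % 4 = 3 := by omega
  rcases h3 with h3 | h3 <;> rcases h4 with h4 | h4 <;>
    simp [Nat.mul_mod, h3, h4, m1_sq]

theorem f_sq (m : ℕ) : (f m : ℂ) * f m = 1 := by
  unfold f
  split_ifs
  · rw [coe_m1]
    norm_num
  · simp

theorem f_odd {m : ℕ} (hm : m % 2 = 1) : f m = if m % 4 = 3 then m1 else 1 := by
  unfold f
  have : ¬ 2 ∣ m := by omega
  rw [Nat.factorization_eq_zero_of_not_dvd this, pow_zero, Nat.div_one]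

theorem pair_zero {k : ℕ} (hk : k % 2 = 0) :
    (f (k + 1) : ℂ) * f (k + 2) + (f (k + 2) : ℂ) * f (k + 3) = 0 := by
  have h1 : (f (k + 1) : ℂ) + f (k + 3) = 0 := by
    rw [f_odd (m := k + 1) (by omega), f_odd (m := k + 3) (by omega)]
    have h2 : k % 4 = 0 ∨ k % 4 = 2 := by omega
    rcases h2 with h2 | h2
    · rw [if_neg (by omega), if_pos (by omega), coe_m1]
      simp
    · rw [if_pos (by omega), if_neg (by omega), coe_m1]
      simp
  linear_combination (f (k + 2) : ℂ) * h1

theorem partial_sum (n : ℕ) :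
    ‖∑ k ∈ Icc 1 n, (f (k + 1) : ℂ) * f (k + 2)‖ ≤ 2 := by
  have hF : ∀ k, ‖(f (k + 1) : ℂ) * f (k + 2)‖ = 1 := by
    intro k
    rw [norm_mul, Circle.norm_coe, Circle.norm_coe, one_mul]
  have hodd : ∀ j : ℕ, ∑ k ∈ Icc 1 (2 * j + 1), (f (k + 1) : ℂ) * f (k + 2) =
      (f 2 : ℂ) * f 3 := by
    intro j
    induction j with
    | zero => simp
    | succ j ih =>
      have h1 : 2 * (j + 1) + 1 = (2 * j + 1) + 1 + 1 := by ring
      rw [h1, Finset.sum_Icc_succ_top (by omega), Finset.sum_Icc_succ_top (by omega), ih]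
      have h2 := pair_zero (k := 2 * j + 1 + 1) (by omega)
      have h3 : 2 * j + 1 + 1 + 1 + 1 = 2 * j + 1 + 1 + 2 := by ring
      have h4 : 2 * j + 1 + 1 + 1 + 2 = 2 * j + 1 + 1 + 3 := by ring
      rw [h3, h4, add_assoc, h2, add_zero]
  rcases Nat.even_or_odd n with ⟨j, hj⟩ | ⟨j, hj⟩
  · rcases Nat.eq_zero_or_pos j with rfl | hj0
    · rw [hj]
      simp
    · obtain ⟨i, rfl⟩ : ∃ i, j = i + 1 := ⟨j - 1, by omega⟩
      have h1 : n = (2 * i + 1) + 1 := by omega
      rw [h1, Finset.sum_Icc_succ_top (by omega), hodd]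
      refine (norm_add_le _ _).trans ?_
      rw [hF, norm_mul, Circle.norm_coe, Circle.norm_coe]
      norm_num
  · rw [hj, hodd, norm_mul, Circle.norm_coe, Circle.norm_coe]
    norm_num

/-- **Answer for both weights.** For the weight `1` the assertion fails: already for `l = 2`,
`h = (1, 2)` and `a_1 = a_2 = f` with `f` completely multiplicative the supremum is at most `2`.
For the weight `e(k ^ 2 α)` with `α` irrational it holds for all unimodular sequences. -/
theorem result :
    (∃ f : ℕ → Circle, (∀ m n : ℕ, 1 ≤ m → 1 ≤ n → f (m * n) = f m * f n) ∧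
      D (fun _ : Fin 2 => f) ![1, 2] (fun _ => 1) ≤ 2) ∧
    (∀ α : ℝ, Irrational α → ∀ (l : ℕ) (a : Fin l → ℕ → Circle) (h : Fin l → ℕ),
      1 ≤ l → (∀ j, 1 ≤ h j) →
        D a h (fun k => Complex.exp (2 * Real.pi * Complex.I * ((k : ℂ) ^ 2 * α))) = ⊤) := by
  refine ⟨⟨f, f_mul, ?_⟩, ?_⟩
  · unfold D
    refine iSup_le fun d => iSup_le fun hd => iSup_le fun n => iSup_le fun _ => ?_
    have h1 : ∑ k ∈ Icc 1 n, (1 : ℂ) * ∏ j : Fin 2, (f (d * (k + (![1, 2] : Fin 2 → ℕ) j)) : ℂ) =
        ∑ k ∈ Icc 1 n, (f (k + 1) : ℂ) * f (k + 2) := by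
      refine Finset.sum_congr rfl fun k _ => ?_
      rw [one_mul, Fin.prod_univ_two]
      simp only [Matrix.cons_val_zero, Matrix.cons_val_one]
      rw [f_mul d (k + 1) hd (by omega), f_mul d (k + 2) hd (by omega), Circle.coe_mul,
        Circle.coe_mul]
      linear_combination (f (k + 1) : ℂ) * f (k + 2) * f_sq d
    rw [h1]
    refine (ENNReal.ofReal_le_ofReal (partial_sum n)).trans ?_
    simp
  · intro α hα l a h _ _
    by_contra hne
    obtain ⟨C, hC⟩ : ∃ C : NNReal, (C : ℝ≥0∞) =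
        D a h (fun k => Complex.exp (2 * Real.pi * Complex.I * ((k : ℂ) ^ 2 * α))) :=
      ⟨_, ENNReal.coe_toNNReal hne⟩
    refine no_bound a h hα (C : ℝ) fun d n hd hn => ?_
    have h1 : ENNReal.ofReal ‖∑ k ∈ Icc 1 n, Complex.exp (2 * Real.pi * Complex.I *
        ((k : ℂ) ^ 2 * α)) * ∏ j, (a j (d * (k + h j)) : ℂ)‖ ≤ C := by
      rw [hC]
      unfold D
      exact le_iSup_of_le d (le_iSup_of_le hd (le_iSup_of_le n (le_iSup_of_le hn le_rfl)))
    rw [ENNReal.ofReal_le_iff_le_toReal ENNReal.coe_ne_top, ENNReal.coe_toReal] at h1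
    refine le_of_eq_of_le ?_ h1
    congr 1
    refine Finset.sum_congr rfl fun k _ => ?_
    congr 1
    unfold e
    congr 1
    push_cast
    ring

end Pool.Agent.Results.MP_10145b_nt.BothWeights
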